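import Mathlib

/-! # Project OS, job RED: points of the trivial 2-covering reduce to infinity (helper135) -/

set_option autoImplicit false

namespace Pool.Agent.Q135.OS

open Polynomial

section

variable {p : ℕ} [Fact p.Prime]

/-- a nonzero polynomial over `ℚ_p` is a constant times an integral one with nonzero reduction -/
theorem normalise (h : ℚ_[p][X]) (h0 : h ≠ 0) :
    ∃ (c : ℚ_[p]) (h1 : ℤ_[p][X]), c ≠ 0 ∧ h = C c * h1.map PadicInt.Coe.ringHom ∧
      h1.map (PadicInt.toZMod (p := p)) ≠ 0 := by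
  obtain ⟨i, hi, hmax⟩ := Finset.exists_max_image h.support (fun i => ‖h.coeff i‖)
    (Polynomial.support_nonempty.mpr h0)
  have hc : h.coeff i ≠ 0 := Polynomial.mem_support_iff.mp hi
  have hle : ∀ j, ‖h.coeff j‖ ≤ ‖h.coeff i‖ := by
    intro j
    by_cases hj : h.coeff j = 0
    · rw [hj, norm_zero]; exact norm_nonneg _
    · exact hmax j (Polynomial.mem_support_iff.mpr hj)
  have hl : (C (h.coeff i)⁻¹ * h) ∈ Polynomial.lifts (PadicInt.Coe.ringHom (p := p)) := by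
    rw [Polynomial.lifts_iff_coeff_lifts]
    intro j
    rw [coeff_C_mul]
    have : ‖(h.coeff i)⁻¹ * h.coeff j‖ ≤ 1 := by
      rw [norm_mul, norm_inv, inv_mul_le_iff₀ (norm_pos_iff.mpr hc), mul_one]
      exact hle j
    exact ⟨⟨_, this⟩, rfl⟩
  obtain ⟨h1, hh1⟩ := hl
  rw [Polynomial.coe_mapRingHom] at hh1
  refine ⟨h.coeff i, h1, hc, ?_, ?_⟩
  · rw [hh1, ← mul_assoc, ← C_mul, mul_inv_cancel₀ hc, C_1, one_mul]
  · intro hz
    have h2 : (PadicInt.Coe.ringHom (p := p)) (h1.coeff i) = 1 := by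
      rw [← coeff_map, hh1, coeff_C_mul, inv_mul_cancel₀ hc]
    have h3 : h1.coeff i = 1 := by
      apply Subtype.coe_injective
      exact h2
    have h4 := congrArg (fun q => q.coeff i) hz
    simp only [coeff_map, coeff_zero, h3, map_one] at h4
    exact one_ne_zero h4

/-- the reduction of a multiple by an element of norm less than one is zero -/
theorem red_small (c : ℤ_[p]) (hc : ‖c‖ < 1) : PadicInt.toZMod c = 0 := by
  have : c ∈ RingHom.ker (PadicInt.toZMod (p := p)) := by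
    rw [PadicInt.ker_toZMod, IsLocalRing.mem_maximalIdeal, PadicInt.mem_nonunits]
    exact hc
  exact this

theorem map_inj {P Q : ℤ_[p][X]} (h : P.map (PadicInt.Coe.ringHom (p := p)) = Q.map PadicInt.Coe.ringHom) :
    P = Q :=
  Polynomial.map_injective _ Subtype.coe_injective h

/-- a relation with coefficients of norm at most one, descended to the residue field -/
theorem descend (a b c : ℚ_[p]) (ha : ‖a‖ ≤ 1) (hb : ‖b‖ ≤ 1) (hc : ‖c‖ ≤ 1) (P Q R : ℤ_[p][X])
    (h : C a * P.map PadicInt.Coe.ringHom = C b * Q.map PadicInt.Coe.ringHom +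
      C c * R.map PadicInt.Coe.ringHom) :
    ∃ a' b' c' : ZMod p, (a = 1 → a' = 1) ∧ (b = 1 → b' = 1) ∧ (c = 1 → c' = 1) ∧
      (‖a‖ < 1 → a' = 0) ∧ (‖b‖ < 1 → b' = 0) ∧ (‖c‖ < 1 → c' = 0) ∧
      C a' * P.map (PadicInt.toZMod (p := p)) = C b' * Q.map PadicInt.toZMod +
      C c' * R.map PadicInt.toZMod := by
  obtain ⟨a1, rfl⟩ : ∃ a1 : ℤ_[p], (a1 : ℚ_[p]) = a := ⟨⟨a, ha⟩, rfl⟩
  obtain ⟨b1, rfl⟩ : ∃ b1 : ℤ_[p], (b1 : ℚ_[p]) = b := ⟨⟨b, hb⟩, rfl⟩
  obtain ⟨c1, rfl⟩ : ∃ c1 : ℤ_[p], (c1 : ℚ_[p]) = c := ⟨⟨c, hc⟩, rfl⟩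
  have e : C a1 * P = C b1 * Q + C c1 * R := by
    apply map_inj
    rw [Polynomial.map_add, Polynomial.map_mul, Polynomial.map_mul, Polynomial.map_mul, map_C, map_C,
      map_C]
    exact h
  have one : ∀ t : ℤ_[p], (t : ℚ_[p]) = 1 → PadicInt.toZMod t = 1 := by
    intro t ht
    have : t = 1 := Subtype.coe_injective ht
    rw [this, map_one]
  refine ⟨PadicInt.toZMod a1, PadicInt.toZMod b1, PadicInt.toZMod c1,
    one _, one _, one _, fun h => red_small _ h, fun h => red_small _ h, fun h => red_small _ h, ?_⟩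
  have := congrArg (Polynomial.map (PadicInt.toZMod (p := p))) e
  rw [Polynomial.map_add, Polynomial.map_mul, Polynomial.map_mul, Polynomial.map_mul, map_C, map_C,
    map_C] at this
  exact this

/-- the core: a separable reduction does not allow `h² = b (r - X) + f q` with `‖b‖` odd -/
theorem core (f : ℤ_[p][X]) (hf : Squarefree (f.map (PadicInt.toZMod (p := p))))
    (hn : 2 ≤ (f.map (PadicInt.toZMod (p := p))).natDegree) (b : ℚ_[p]) (hb : ‖b‖ = (p : ℝ)⁻¹)
    (r : ℤ_[p]) (h q : ℚ_[p][X]) (h0 : h ≠ 0) (q0 : q ≠ 0)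
    (hd : h.natDegree < (f.map (PadicInt.toZMod (p := p))).natDegree)
    (e : h ^ 2 = C b * (C (r : ℚ_[p]) - X) + f.map PadicInt.Coe.ringHom * q) : False := by
  have hp : p.Prime := Fact.out
  have hp0 : (0 : ℝ) < p := by exact_mod_cast hp.pos
  have hp1 : (1 : ℝ) < p := by exact_mod_cast hp.one_lt
  have f0 : f.map (PadicInt.toZMod (p := p)) ≠ 0 := by
    intro hz
    rw [hz] at hn
    simp at hn
  have b0 : b ≠ 0 := by
    rintro rfl
    rw [norm_zero] at hb
    exact (inv_ne_zero hp0.ne') hb.symm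
  obtain ⟨c, h1, c0, hh, hh1⟩ := normalise h h0
  obtain ⟨d, q1, d0, hq, hq1⟩ := normalise q q0
  -- the degree of the reduction of h1
  have hdeg : (h1.map (PadicInt.toZMod (p := p))).natDegree <
      (f.map (PadicInt.toZMod (p := p))).natDegree := by
    refine lt_of_le_of_lt natDegree_map_le (lt_of_eq_of_lt ?_ hd)
    rw [hh, natDegree_C_mul c0, natDegree_map_eq_of_injective Subtype.coe_injective]
  have e' : C (c ^ 2) * (h1 ^ 2).map PadicInt.Coe.ringHom =
      C b * (C r - X : ℤ_[p][X]).map PadicInt.Coe.ringHom +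
      C d * (f * q1).map PadicInt.Coe.ringHom := by
    rw [Polynomial.map_pow, Polynomial.map_sub, map_C, map_X, Polynomial.map_mul]
    rw [hh, hq] at e
    rw [C_pow]
    have h5 : (PadicInt.Coe.ringHom (p := p)) r = (r : ℚ_[p]) := rfl
    rw [h5]
    linear_combination e
  -- norms differ
  have hne : ‖c ^ 2‖ ≠ ‖b‖ := by
    rw [hb, norm_pow, Padic.norm_eq_zpow_neg_valuation c0]
    intro h6
    rw [← zpow_natCast, ← zpow_mul, ← zpow_neg_one] at h6
    have h7 := zpow_right_injective₀ hp0 hp1.ne' h6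
    push_cast at h7
    omega
  have hfq : (f * q1).map (PadicInt.toZMod (p := p)) ≠ 0 := by
    rw [Polynomial.map_mul]
    exact mul_ne_zero f0 hq1
  have c20 : c ^ 2 ≠ 0 := pow_ne_zero 2 c0
  have key : ∀ u : ℚ_[p], u ≠ 0 → C (c ^ 2 / u) * (h1 ^ 2).map PadicInt.Coe.ringHom =
      C (b / u) * (C r - X : ℤ_[p][X]).map PadicInt.Coe.ringHom +
      C (d / u) * (f * q1).map PadicInt.Coe.ringHom := by
    intro u hu
    rw [div_eq_mul_inv, div_eq_mul_inv, div_eq_mul_inv, C_mul, C_mul, C_mul]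
    linear_combination (C u⁻¹) * e'
  have hdiv : ∀ s t : ℚ_[p], t ≠ 0 → ‖s‖ ≤ ‖t‖ → ‖s / t‖ ≤ 1 := by
    intro s t ht hst
    rw [norm_div]
    exact div_le_one_of_le₀ hst (norm_nonneg _)
  have hdiv' : ∀ s t : ℚ_[p], t ≠ 0 → ‖s‖ < ‖t‖ → ‖s / t‖ < 1 := by
    intro s t ht hst
    rw [norm_div, div_lt_one (norm_pos_iff.mpr ht)]
    exact hst
  have hself : ∀ t : ℚ_[p], t ≠ 0 → ‖t / t‖ ≤ 1 := by
    intro t ht
    rw [div_self ht, norm_one]
  by_cases hdb : ‖d‖ ≤ max ‖c ^ 2‖ ‖b‖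
  · rcases lt_or_gt_of_ne hne with hlt | hgt
    · -- the case ‖c²‖ < ‖b‖
      rw [max_eq_right hlt.le] at hdb
      obtain ⟨a', b', d', -, h2, -, h3, -, -, h4⟩ := descend _ _ _ (hdiv _ b b0 hlt.le) (hself b b0)
        (hdiv _ b b0 hdb) _ _ _ (key b b0)
      rw [h2 (div_self b0), h3 (hdiv' _ _ b0 hlt), C_0, C_1, zero_mul, one_mul, Polynomial.map_mul,
        Polynomial.map_sub, map_C, map_X] at h4
      have h5 : f.map (PadicInt.toZMod (p := p)) ∣ X - C (PadicInt.toZMod r) := by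
        refine ⟨C d' * q1.map PadicInt.toZMod, ?_⟩
        linear_combination h4
      have h6 := natDegree_le_of_dvd h5 (X_sub_C_ne_zero _)
      rw [natDegree_X_sub_C] at h6
      omega
    · rw [max_eq_left hgt.le] at hdb
      obtain ⟨a', b', d', h2, -, -, -, h3, -, h4⟩ := descend _ _ _ (hself _ c20)
        (hdiv _ _ c20 hgt.le) (hdiv _ _ c20 hdb) _ _ _ (key _ c20)
      rw [h2 (div_self c20), h3 (hdiv' _ _ c20 hgt), C_0, C_1, zero_mul, one_mul, zero_add,
        Polynomial.map_mul, Polynomial.map_pow] at h4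
      have h5 : f.map (PadicInt.toZMod (p := p)) ∣ (h1.map (PadicInt.toZMod (p := p))) ^ 2 := by
        refine ⟨C d' * q1.map PadicInt.toZMod, ?_⟩
        linear_combination h4
      have h6 := (hf.dvd_pow_iff_dvd two_ne_zero).mp h5
      have h7 := natDegree_le_of_dvd h6 hh1
      omega
  · rw [not_le, max_lt_iff] at hdb
    obtain ⟨a', b', d', -, -, h1', h2, h3, -, h4⟩ := descend _ _ _ (hdiv _ _ d0 hdb.1.le)
      (hdiv _ _ d0 hdb.2.le) (hself d d0) _ _ _ (key d d0)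
    rw [h1' (div_self d0), h2 (hdiv' _ _ d0 hdb.1), h3 (hdiv' _ _ d0 hdb.2), C_0, C_1, zero_mul,
      zero_mul, zero_add, one_mul] at h4
    exact hfq h4.symm

end

/-- for large primes the reduction of `f` is squarefree of the same degree -/
theorem good_prime (f : ℤ[X]) (hf : Irreducible (f.map (Int.castRingHom ℚ))) :
    ∃ z : ℕ, ∀ (p : ℕ) [Fact p.Prime], z < p → ¬ (p : ℤ) ∣ f.leadingCoeff ∧
      Squarefree (f.map (Int.castRingHom (ZMod p))) := by
  obtain ⟨U, V, hUV⟩ := hf.separable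
  obtain ⟨b1, hb1, h1⟩ := IsLocalization.integerNormalization_spec (nonZeroDivisors ℤ) U
  obtain ⟨b2, hb2, h2⟩ := IsLocalization.integerNormalization_spec (nonZeroDivisors ℤ) V
  set U' := IsLocalization.integerNormalization (nonZeroDivisors ℤ) U with hU'
  set V' := IsLocalization.integerNormalization (nonZeroDivisors ℤ) V with hV'
  have b10 : b1 ≠ 0 := nonZeroDivisors.ne_zero hb1
  have b20 : b2 ≠ 0 := nonZeroDivisors.ne_zero hb2
  have f0 : f ≠ 0 := by
    rintro rfl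
    rw [Polynomial.map_zero] at hf
    exact hf.ne_zero rfl
  have a0 : f.leadingCoeff ≠ 0 := leadingCoeff_ne_zero.mpr f0
  have e : C b2 * U' * f + C b1 * V' * derivative f = C (b1 * b2) := by
    apply Polynomial.map_injective (Int.castRingHom ℚ) Int.cast_injective
    rw [Polynomial.map_add, Polynomial.map_mul, Polynomial.map_mul, Polynomial.map_mul,
      Polynomial.map_mul, map_C, map_C, map_C, ← derivative_map]
    have h1' : U'.map (Int.castRingHom ℚ) = C (b1 : ℚ) * U := by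
      have : (algebraMap ℤ ℚ) = Int.castRingHom ℚ := rfl
      rw [← this, h1]
      ext i
      simp
    have h2' : V'.map (Int.castRingHom ℚ) = C (b2 : ℚ) * V := by
      have : (algebraMap ℤ ℚ) = Int.castRingHom ℚ := rfl
      rw [← this, h2]
      ext i
      simp
    rw [h1', h2']
    simp only [eq_intCast, Int.cast_mul, C_mul]
    linear_combination (C (b1 : ℚ) * C (b2 : ℚ)) * hUV
  refine ⟨(f.leadingCoeff * (b1 * b2)).natAbs, ?_⟩
  intro p hp hz
  have hnd : ¬ (p : ℤ) ∣ f.leadingCoeff * (b1 * b2) := by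
    intro hd
    have h3 := Int.natAbs_dvd_natAbs.mpr hd
    rw [Int.natAbs_natCast] at h3
    have h4 := Nat.le_of_dvd (Int.natAbs_pos.mpr (mul_ne_zero a0 (mul_ne_zero b10 b20))) h3
    omega
  refine ⟨fun h => hnd (h.mul_right _), ?_⟩
  apply Polynomial.Separable.squarefree
  have h5 := congrArg (Polynomial.map (Int.castRingHom (ZMod p))) e
  rw [Polynomial.map_add, Polynomial.map_mul, Polynomial.map_mul, Polynomial.map_mul,
      Polynomial.map_mul, map_C, map_C, map_C, ← derivative_map] at h5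
  have hu : ((b1 * b2 : ℤ) : ZMod p) ≠ 0 := by
    intro h6
    rw [ZMod.intCast_zmod_eq_zero_iff_dvd] at h6
    exact hnd (h6.mul_left _)
  rw [Polynomial.Separable]
  refine ⟨C ((b1 * b2 : ℤ) : ZMod p)⁻¹ * (C ((Int.castRingHom (ZMod p)) b2) * U'.map (Int.castRingHom (ZMod p))),
    C ((b1 * b2 : ℤ) : ZMod p)⁻¹ * (C ((Int.castRingHom (ZMod p)) b1) * V'.map (Int.castRingHom (ZMod p))), ?_⟩
  have h7 : C ((b1 * b2 : ℤ) : ZMod p)⁻¹ * C ((Int.castRingHom (ZMod p)) (b1 * b2)) = 1 := by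
    rw [← C_mul, eq_intCast, inv_mul_cancel₀ hu, C_1]
  linear_combination C ((b1 * b2 : ℤ) : ZMod p)⁻¹ * h5 + h7

theorem red0 : ∀ f : ℤ[X], Irreducible (f.map (Int.castRingHom ℚ)) → 2 ≤ f.natDegree →
  ∃ z : ℕ, ∀ (p : ℕ) [Fact p.Prime], z < p → ∀ D : ℤ, Squarefree D → (p : ℤ) ∣ D →
  ∀ (x w v lam : ℚ_[p]) (g : ℚ_[p][X]), lam ≠ 0 → (x ≠ 0 ∨ w ≠ 0) →
  f.map (Int.castRingHom ℚ_[p]) ∣ C (lam * x) - C (lam * w) * X - g ^ 2 →
  lam * w = ((f.leadingCoeff * D : ℤ) : ℚ_[p]) * v ^ 2 → ‖w‖ < ‖x‖ := by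
  intro f hf hn
  obtain ⟨z, hz⟩ := good_prime f hf
  refine ⟨z, ?_⟩
  intro p hp hzp D hD hpD x w v lam g hlam hxw hdvd hw
  obtain ⟨hpa, hsq⟩ := hz p hzp
  by_contra hlt
  rw [not_lt] at hlt
  have hpp : p.Prime := hp.out
  have w0 : w ≠ 0 := by
    rintro rfl
    rw [norm_zero] at hlt
    have : x = 0 := norm_le_zero_iff.mp hlt
    rcases hxw with h | h
    · exact h this
    · exact h rfl
  have v0 : v ≠ 0 := by
    rintro rfl
    rw [zero_pow two_ne_zero, mul_zero] at hw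
    exact (mul_ne_zero hlam w0) hw
  have f0 : f ≠ 0 := by
    rintro rfl
    simp at hn
  have hinj : Function.Injective (Int.castRingHom ℚ_[p]) := Int.cast_injective
  have D0 : D ≠ 0 := hD.ne_zero
  set b : ℚ_[p] := ((f.leadingCoeff * D : ℤ) : ℚ_[p]) with hbdef
  have b0 : b ≠ 0 := by
    rw [hbdef]
    exact Int.cast_ne_zero.mpr (mul_ne_zero (leadingCoeff_ne_zero.mpr f0) D0)
  -- the norm of b
  have hb : ‖b‖ = (p : ℝ)⁻¹ := by
    obtain ⟨E, hE⟩ := hpD
    have hpE : ¬ (p : ℤ) ∣ E := by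
      rintro ⟨F, hF⟩
      have h1 : (p : ℤ) * (p : ℤ) ∣ D := ⟨F, by rw [hE, hF]; ring⟩
      have h2 := hD _ h1
      have h3 := Int.isUnit_iff.mp h2
      have h4 := hpp.two_le
      omega
    have h1 : b = (p : ℚ_[p]) * ((f.leadingCoeff * E : ℤ) : ℚ_[p]) := by
      rw [hbdef, hE]
      push_cast
      ring
    have hp' : Prime (p : ℤ) := Nat.prime_iff_prime_int.mp hpp
    have h2 : ¬ (p : ℤ) ∣ f.leadingCoeff * E := by
      intro h3
      rcases hp'.dvd_or_dvd h3 with h4 | h4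
      · exact hpa h4
      · exact hpE h4
    have h3 : ‖((f.leadingCoeff * E : ℤ) : ℚ_[p])‖ = 1 := by
      refine le_antisymm (Padic.norm_int_le_one _) ?_
      by_contra h4
      rw [not_le] at h4
      exact h2 (Padic.norm_intCast_lt_one_iff.mp h4)
    rw [h1, norm_mul, Padic.norm_p, h3, mul_one]
  -- the reduction of f
  set fp : ℤ_[p][X] := f.map (Int.castRingHom ℤ_[p]) with hfp
  have hfpK : fp.map PadicInt.Coe.ringHom = f.map (Int.castRingHom ℚ_[p]) := by
    rw [hfp, Polynomial.map_map, RingHom.ext_int (PadicInt.Coe.ringHom.comp (Int.castRingHom ℤ_[p]))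
      (Int.castRingHom ℚ_[p])]
  have hfpk : fp.map (PadicInt.toZMod (p := p)) = f.map (Int.castRingHom (ZMod p)) := by
    rw [hfp, Polynomial.map_map, RingHom.ext_int (PadicInt.toZMod.comp (Int.castRingHom ℤ_[p]))
      (Int.castRingHom (ZMod p))]
  have hdegk : (fp.map (PadicInt.toZMod (p := p))).natDegree = f.natDegree := by
    rw [hfpk]
    apply natDegree_map_of_leadingCoeff_ne_zero
    rw [eq_intCast, Ne, ZMod.intCast_zmod_eq_zero_iff_dvd]
    exact hpa
  have hdegK : (f.map (Int.castRingHom ℚ_[p])).natDegree = f.natDegree :=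
    natDegree_map_eq_of_injective hinj f
  have hfK0 : f.map (Int.castRingHom ℚ_[p]) ≠ 0 := (Polynomial.map_ne_zero_iff hinj).mpr f0
  -- the point
  have hxr : ‖x / w‖ ≤ 1 := by
    rw [norm_div]
    exact div_le_one_of_le₀ hlt (norm_nonneg _)
  obtain ⟨r, hr⟩ : ∃ r : ℤ_[p], (r : ℚ_[p]) = x / w := ⟨⟨x / w, hxr⟩, rfl⟩
  have hd1 : f.map (Int.castRingHom ℚ_[p]) ∣ C b * (C (r : ℚ_[p]) - X) - (C v⁻¹ * g) ^ 2 := by
    obtain ⟨k, hk⟩ := hdvd
    refine ⟨C (v⁻¹ ^ 2) * k, ?_⟩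
    have h1 : C (v⁻¹ ^ 2) * (C (lam * x) - C (lam * w) * X - g ^ 2) =
        C b * (C (r : ℚ_[p]) - X) - (C v⁻¹ * g) ^ 2 := by
      have h2 : b = v⁻¹ ^ 2 * (lam * w) := by
        rw [hw]
        field_simp
      have h3 : b * (r : ℚ_[p]) = v⁻¹ ^ 2 * (lam * x) := by
        rw [h2, hr]
        field_simp
      have h4 : C b * C (r : ℚ_[p]) = C (v⁻¹ ^ 2) * C (lam * x) := by
        rw [← C_mul, h3, C_mul]
      have h5 : C b = C (v⁻¹ ^ 2) * C (lam * w) := by
        rw [h2, C_mul]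
      have h6 : C (v⁻¹ ^ 2) = (C v⁻¹ : ℚ_[p][X]) ^ 2 := C_pow
      linear_combination (-1 : ℚ_[p][X]) * h4 + X * h5 - g ^ 2 * h6
    rw [← h1, hk]; ring
  set h := (C v⁻¹ * g) % (f.map (Int.castRingHom ℚ_[p])) with hh
  have hhd : h.natDegree < f.natDegree := by
    rw [← hdegK]
    apply natDegree_mod_lt
    rw [hdegK]
    omega
  have hd2 : f.map (Int.castRingHom ℚ_[p]) ∣ h ^ 2 - C b * (C (r : ℚ_[p]) - X) := by
    have h1 : f.map (Int.castRingHom ℚ_[p]) ∣ (C v⁻¹ * g) ^ 2 - h ^ 2 := by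
      have h2 : f.map (Int.castRingHom ℚ_[p]) ∣ (C v⁻¹ * g) - h := by
        refine ⟨(C v⁻¹ * g) / (f.map (Int.castRingHom ℚ_[p])), ?_⟩
        have h9 := EuclideanDomain.div_add_mod (C v⁻¹ * g) (f.map (Int.castRingHom ℚ_[p]))
        rw [← hh] at h9
        linear_combination -h9
      have h3 : (C v⁻¹ * g) ^ 2 - h ^ 2 = ((C v⁻¹ * g) - h) * ((C v⁻¹ * g) + h) := by ring
      rw [h3]
      exact h2.mul_right _
    have h4 := dvd_add hd1 h1
    have h5 : h ^ 2 - C b * (C (r : ℚ_[p]) - X) =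
        - ((C b * (C (r : ℚ_[p]) - X) - (C v⁻¹ * g) ^ 2) + ((C v⁻¹ * g) ^ 2 - h ^ 2)) := by ring
    rw [h5]
    exact h4.neg_right
  obtain ⟨q, hq⟩ := hd2
  have hlin : (C b * (C (r : ℚ_[p]) - X)).natDegree = 1 := by
    rw [natDegree_C_mul b0, ← neg_sub, natDegree_neg, natDegree_X_sub_C]
  have h0 : h ≠ 0 := by
    intro h1
    rw [h1, zero_pow two_ne_zero, zero_sub] at hq
    have h2 : f.map (Int.castRingHom ℚ_[p]) ∣ -(C b * (C (r : ℚ_[p]) - X)) := ⟨q, hq⟩
    have h3 : -(C b * (C (r : ℚ_[p]) - X)) ≠ 0 := by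
      intro h4
      have h5 := congrArg natDegree h4
      rw [natDegree_neg, hlin, natDegree_zero] at h5
      exact one_ne_zero h5
    have h4 := natDegree_le_of_dvd h2 h3
    rw [natDegree_neg, hlin, hdegK] at h4
    omega
  have q0 : q ≠ 0 := by
    intro h1
    rw [h1, mul_zero, sub_eq_zero] at hq
    have h2 := congrArg natDegree hq
    rw [hlin, natDegree_pow] at h2
    omega
  refine core fp (by rw [hfpk]; exact hsq) (by rw [hdegk]; exact hn) b hb r h q h0 q0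
    (by rw [hdegk]; exact hhd) ?_
  rw [hfpK]
  linear_combination hq

end Pool.Agent.Q135.OS
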