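import Pool.Agent.Q161.OS.Red
import Pool.Agent.Q135.OS.RED0

/-! # Project OS, job RED (helper135) -/

set_option autoImplicit false

namespace Pool.Agent.Q135.OS

open Pool.Agent.Q161.OS

theorem red : S_RED := red0

end Pool.Agent.Q135.OS
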